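import Mathlib
import Pool.Agent.Helper292.ForceCH
import Pool.Agent.Helper319.Jak

set_option autoImplicit false

open Set Topology Filter

namespace Pool.Agent.Results.MP_4fd693_gt.AllPartsForced

open Pool.Agent.Helper292.ForceCH (Om OmegaOnePreserved DiamondHolds)
open Pool.Agent.Helper319.Jak

/-! ### Diamond -/

/-- `C` is a closed unbounded subset of `ω₁` (the sentence named by `IsClubName`) -/
def IsClub (C : Om → Prop) : Prop :=
  (∀ a : Om, ∃ b : Om, a < b ∧ C b) ∧
    ∀ a : Om, (∃ b, b < a) → (∀ b : Om, b < a → ∃ c : Om, (b < c ∧ c < a) ∧ C c) → C a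

/-- Jensen's diamond: the sentence which `DiamondHolds P` says is forced, evaluated in the
universe -/
def Diamond : Prop :=
  ∃ A : Om → Om → Prop, ∀ S : Om → Prop, ∀ C : Om → Prop,
    IsClub C → ∃ a : Om, C a ∧ ∀ b : Om, b < a → (S b ↔ A a b)

/-! ### The notions of the problem -/

/-- weakly first countable spaces (Arhangel'skii) -/
def WeaklyFirstCountable (X : Type) [TopologicalSpace X] : Prop :=
  ∃ B : X → ℕ → Set X, (∀ x n, B x (n + 1) ⊆ B x n) ∧ (∀ x n, x ∈ B x n) ∧
    ∀ U : Set X, IsOpen U ↔ ∀ x ∈ U, ∃ n, B x n ⊆ U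

/-- `F` is a filter in the lattice of closed subsets of `X` -/
def IsClosedFilter {X : Type} [TopologicalSpace X] (F : Set (Set X)) : Prop :=
  F.Nonempty ∧ (∀ C ∈ F, IsClosed C) ∧ ∅ ∉ F ∧ (∀ C ∈ F, ∀ D ∈ F, C ∩ D ∈ F) ∧
    ∀ C ∈ F, ∀ D, IsClosed D → C ⊆ D → D ∈ F

/-- `F` is a closed ultrafilter: a maximal filter in the lattice of closed subsets of `X` -/
def IsClosedUltrafilter {X : Type} [TopologicalSpace X] (F : Set (Set X)) : Prop :=
  IsClosedFilter F ∧ ∀ F' : Set (Set X), IsClosedFilter F' → F ⊆ F' → F' = F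

/-- `X` is `α`-realcompact: no closed ultrafilter on `X` with the countable intersection property
is free -/
def AlphaRealcompact (X : Type) [TopologicalSpace X] : Prop :=
  ∀ F : Set (Set X), IsClosedUltrafilter F → (∀ S ⊆ F, S.Countable → (⋂₀ S).Nonempty) →
    (⋂₀ F).Nonempty

/-- every subspace of `X` is `α`-realcompact -/
def HereditarilyAlphaRealcompact (X : Type) [TopologicalSpace X] : Prop :=
  ∀ Y : Set X, AlphaRealcompact Y

/-- `X` is Radon: every finite Borel measure on `X` is inner regular with respect to compact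
sets -/
def Radon (X : Type) [TopologicalSpace X] : Prop :=
  ∀ μ : @MeasureTheory.Measure X (borel X), @MeasureTheory.IsFiniteMeasure X (borel X) μ →
    ∀ B : Set X, @MeasurableSet X (borel X) B →
      μ B = ⨆ (K : Set X) (_ : K ⊆ B) (_ : IsCompact K), μ K

/-- `X` is weakly `θ`-refinable: every open cover has an open refinement `⋃ n, 𝒱 n` such that for
each point `x` there is `n` such that `x` lies in at least one and only finitely many members of
`𝒱 n` -/
def WeaklyThetaRefinable (X : Type) [TopologicalSpace X] : Prop :=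
  ∀ 𝒰 : Set (Set X), (∀ U ∈ 𝒰, IsOpen U) → ⋃₀ 𝒰 = univ →
    ∃ 𝒱 : ℕ → Set (Set X), (∀ n, ∀ V ∈ 𝒱 n, IsOpen V ∧ ∃ U ∈ 𝒰, V ⊆ U) ∧
      ∀ x : X, ∃ n, {V | V ∈ 𝒱 n ∧ x ∈ V}.Nonempty ∧ {V | V ∈ 𝒱 n ∧ x ∈ V}.Finite

/-- every subspace of `X` is weakly `θ`-refinable -/
def HereditarilyWeaklyThetaRefinable (X : Type) [TopologicalSpace X] : Prop :=
  ∀ Y : Set X, WeaklyThetaRefinable Y

/-! ### The subspace of the points of rank zero is not `α`-realcompact -/

variable {G : Om → ℕ → Set Pt}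

/-- the closed unbounded subsets of the subspace -/
def FF (G : Om → ℕ → Set Pt) : Set (Set (YY G)) := {C | IsClosed C ∧ Unb (iy G ⁻¹' C)}

lemma isClosed_tail (β : Om) : IsClosed {y : YY G | ∃ δ, β < δ ∧ iy G δ = y} := by
  rw [← isOpen_compl_iff]
  convert isOpen_le (G := G) β using 1
  ext y
  obtain ⟨δ, rfl⟩ := iy_surj y
  constructor
  · intro h δ' hδ'
    by_contra hlt
    exact h ⟨δ', not_le.1 hlt, hδ'⟩
  · rintro h ⟨δ', h1, h2⟩
    exact absurd h1 (not_lt.2 (h δ' h2))

lemma tail_mem (β : Om) : {y : YY G | ∃ δ, β < δ ∧ iy G δ = y} ∈ FF G := by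
  refine ⟨isClosed_tail β, ?_⟩
  intro γ
  obtain ⟨δ, h1, h2⟩ := unb_tail β γ
  exact ⟨δ, ⟨δ, h1, rfl⟩, h2⟩

lemma isClosedFilter_FF (hG : Guess G) : IsClosedFilter (FF G) := by
  refine ⟨⟨_, tail_mem (Classical.arbitrary Om)⟩, fun C hC => hC.1, ?_, ?_, ?_⟩
  · rintro ⟨_, h⟩
    obtain ⟨δ, h1, _⟩ := h (Classical.arbitrary Om)
    exact h1
  · intro C hC D hD
    refine ⟨hC.1.inter hD.1, ?_⟩
    have h1 := unb_iInter hG (fun j => if j = 0 then iy G ⁻¹' C else iy G ⁻¹' D) (by
      intro j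
      by_cases hj : j = 0
      · simpa [hj] using rc_of_closed' hC.1
      · simpa [hj] using rc_of_closed' hD.1) (by
      intro j
      by_cases hj : j = 0
      · simpa [hj] using hC.2
      · simpa [hj] using hD.2)
    intro β
    obtain ⟨δ, h2, h3⟩ := h1 β
    rw [mem_iInter] at h2
    exact ⟨δ, ⟨by simpa using h2 0, by simpa using h2 1⟩, h3⟩
  · intro C hC D hD hCD
    refine ⟨hD, fun β => ?_⟩
    obtain ⟨δ, h1, h2⟩ := hC.2 β
    exact ⟨δ, hCD h1, h2⟩

lemma isClosedUltrafilter_FF (hG : Guess G) : IsClosedUltrafilter (FF G) := by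
  refine ⟨isClosedFilter_FF hG, fun F' hF' hsub => Subset.antisymm ?_ hsub⟩
  intro D hD
  refine ⟨hF'.2.1 D hD, ?_⟩
  by_contra h
  unfold Unb at h
  push Not at h
  obtain ⟨β, hβ⟩ := h
  have h1 := hF'.2.2.2.1 D hD _ (hsub (tail_mem β))
  apply hF'.2.2.1
  convert h1 using 1
  rw [eq_comm, Set.eq_empty_iff_forall_notMem]
  rintro y ⟨hy, δ, hδ, rfl⟩
  exact absurd hδ (not_lt.2 (hβ δ hy))

lemma not_alphaRealcompact (hG : Guess G) : ¬ AlphaRealcompact (YY G) := by
  intro h
  obtain ⟨y, hy⟩ := h (FF G) (isClosedUltrafilter_FF hG) (by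
    intro S hS hSc
    rcases S.eq_empty_or_nonempty with rfl | hne
    · exact ⟨iy G (Classical.arbitrary Om), by simp⟩
    · obtain ⟨g, rfl⟩ := hSc.exists_eq_range hne
      obtain ⟨δ, hδ, _⟩ := unb_iInter hG (fun j => iy G ⁻¹' (g j))
        (fun j => rc_of_closed' (hS (mem_range_self j)).1) (fun j => (hS (mem_range_self j)).2)
        (Classical.arbitrary Om)
      refine ⟨iy G δ, ?_⟩
      rintro _ ⟨j, rfl⟩
      exact mem_iInter.1 hδ j)
  obtain ⟨δ, rfl⟩ := iy_surj y
  obtain ⟨δ', h1, h2⟩ := hy _ (tail_mem δ)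
  have h3 : δ' = δ := pz_inj (congrArg Subtype.val h2)
  rw [h3] at h1
  exact lt_irrefl _ h1

lemma not_weaklyThetaRefinable (hG : Guess G) : ¬ WeaklyThetaRefinable (YY G) := by
  intro h
  obtain ⟨𝒱, h1, h2⟩ := h (range fun β : Om => {y : YY G | ∀ δ, iy G δ = y → δ ≤ β}) (by
    rintro _ ⟨β, rfl⟩
    exact isOpen_le β) (by
    rw [eq_univ_iff_forall]
    intro y
    obtain ⟨δ, rfl⟩ := iy_surj y
    refine ⟨_, ⟨δ, rfl⟩, fun δ' h => ?_⟩
    exact (pz_inj (congrArg Subtype.val h)).le)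
  refine not_theta hG 𝒱 (fun n V hV => ?_) h2
  obtain ⟨h3, _, ⟨β, rfl⟩, h4⟩ := h1 n V hV
  exact ⟨h3, β, h4⟩

/-! ### The measure -/

lemma big_dichotomy (hG : Guess G) (B : Set (OnePoint (Sp G)))
    (hB : @MeasurableSet (OnePoint (Sp G)) (borel (OnePoint (Sp G))) B) :
    Big G (pz G ⁻¹' B) ∨ Big G (pz G ⁻¹' B)ᶜ := by
  induction B, hB using MeasurableSpace.generateFrom_induction with
  | hC U hU _ =>
    have h1 := big_or (rc_of_closed (G := G) (IsOpen.isClosed_compl (show IsOpen U from hU)))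
    rw [preimage_compl, compl_compl] at h1
    exact h1.symm
  | empty => right; simpa using ⟨univ, Subset.rfl, fun _ _ => trivial, fun β => by
      obtain ⟨δ, hδ⟩ := exists_gt β
      exact ⟨δ, trivial, hδ⟩⟩
  | compl B _ ih =>
    rw [preimage_compl, compl_compl]
    exact ih.symm
  | iUnion f _ ih =>
    by_cases h : ∃ n, Big G (pz G ⁻¹' (f n))
    · obtain ⟨n, hn⟩ := h
      exact Or.inl (hn.mono (preimage_mono (subset_iUnion f n)))
    · push Not at h
      right
      have h1 := big_iInter hG (fun n => (pz G ⁻¹' (f n))ᶜ) fun n => (ih n).resolve_left (h n)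
      refine h1.mono ?_
      rw [preimage_iUnion, compl_iUnion]

lemma not_big_both (hG : Guess G) {A B : Set Om} (hA : Big G A) (hB : Big G B)
    (h : Disjoint A B) : False := by
  obtain ⟨x, hx⟩ := big_nonempty (big_inter hG hA hB)
  exact Set.disjoint_left.1 h hx.1 hx.2

lemma not_big_empty : ¬ Big G (∅ : Set Om) := fun h => by
  obtain ⟨x, hx⟩ := big_nonempty h
  exact hx

/-- the two-valued measure -/
lemma exists_measure (hG : Guess G) :
    ∃ μ : @MeasureTheory.Measure (OnePoint (Sp G)) (borel (OnePoint (Sp G))),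
      (∀ s, @MeasurableSet (OnePoint (Sp G)) (borel (OnePoint (Sp G))) s →
        Big G (pz G ⁻¹' s) → μ s = 1) ∧
      ∀ s, @MeasurableSet (OnePoint (Sp G)) (borel (OnePoint (Sp G))) s →
        ¬ Big G (pz G ⁻¹' s) → μ s = 0 := by
  classical
  letI : MeasurableSpace (OnePoint (Sp G)) := borel _
  let m : ∀ s : Set (OnePoint (Sp G)), MeasurableSet s → ENNReal :=
    fun s _ => if Big G (pz G ⁻¹' s) then 1 else 0
  have m0 : m ∅ MeasurableSet.empty = 0 := if_neg not_big_empty
  have mU : ∀ ⦃f : ℕ → Set (OnePoint (Sp G))⦄ (h : ∀ i, MeasurableSet (f i)),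
      Pairwise (Function.onFun Disjoint f) → m (⋃ i, f i) (MeasurableSet.iUnion h) =
        ∑' i, m (f i) (h i) := by
    intro f hf hd
    by_cases h : ∃ n, Big G (pz G ⁻¹' (f n))
    · obtain ⟨n, hn⟩ := h
      have h1 : m (⋃ i, f i) (MeasurableSet.iUnion hf) = 1 :=
        if_pos (hn.mono (preimage_mono (subset_iUnion f n)))
      rw [h1, tsum_eq_single n]
      · exact (if_pos hn).symm
      · intro m' hm
        refine if_neg ?_
        intro hm'
        exact not_big_both hG hm' hn ((hd hm).preimage _)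
    · push Not at h
      have h1 := big_iInter hG (fun n => (pz G ⁻¹' (f n))ᶜ) fun n =>
        (big_dichotomy hG (f n) (hf n)).resolve_left (h n)
      have h2 : m (⋃ i, f i) (MeasurableSet.iUnion hf) = 0 := by
        refine if_neg ?_
        intro h2
        refine not_big_both hG h1 h2 ?_
        rw [preimage_iUnion, ← compl_iUnion]
        exact disjoint_compl_left
      have h3 : ∀ i, m (f i) (hf i) = 0 := fun i => if_neg (h i)
      rw [h2]
      simp [h3]
  refine ⟨MeasureTheory.Measure.ofMeasurable m m0 mU, fun s hs hb => ?_, fun s hs hb => ?_⟩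
  · rw [MeasureTheory.Measure.ofMeasurable_apply s hs]
    exact if_pos hb
  · rw [MeasureTheory.Measure.ofMeasurable_apply s hs]
    exact if_neg hb

lemma isOpen_YY : IsOpen (YY G) := by
  have h : YY G = (fun q : Sp G => (q : OnePoint (Sp G))) '' {p : Sp G | p.pt.2 ≤ 0} := by
    ext y
    constructor
    · rintro ⟨δ, rfl⟩
      exact ⟨⟨(δ, 0)⟩, le_refl 0, rfl⟩
    · rintro ⟨⟨δ, r⟩, hq, rfl⟩
      have hr : r = 0 := Nat.le_zero.1 hq
      subst hr
      exact ⟨δ, rfl⟩
  rw [h]
  exact OnePoint.isOpenEmbedding_coe.isOpenMap _ (isOpen_rank 0)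

lemma compact_bounded {K : Set (OnePoint (Sp G))} (hK : IsCompact K) (hKY : K ⊆ YY G) :
    ∃ β, ∀ δ, pz G δ ∈ K → δ ≤ β := by
  obtain ⟨β, hβ⟩ := hK.elim_directed_cover
    (fun β : Om => (fun q : Sp G => (q : OnePoint (Sp G))) '' {p : Sp G | p.pt.1 ≤ β})
    (fun β => OnePoint.isOpenEmbedding_coe.isOpenMap _ (isOpen_level β)) (by
      intro y hy
      obtain ⟨δ, rfl⟩ := hKY hy
      exact mem_iUnion.2 ⟨δ, ⟨(δ, 0)⟩, le_refl δ, rfl⟩) (by
      intro a b
      refine ⟨max a b, ?_, ?_⟩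
      · refine image_mono ?_
        intro q hq
        have h4 : q.pt.1 ≤ a := hq
        exact h4.trans (le_max_left _ _)
      · refine image_mono ?_
        intro q hq
        have h4 : q.pt.1 ≤ b := hq
        exact h4.trans (le_max_right _ _))
  refine ⟨β, fun δ hδ => ?_⟩
  obtain ⟨q, hq, hq'⟩ := hβ hδ
  have h2 := OnePoint.coe_injective hq'
  rw [h2] at hq
  exact hq

lemma not_radon (hG : Guess G) : ¬ Radon (OnePoint (Sp G)) := by
  intro h
  letI : MeasurableSpace (OnePoint (Sp G)) := borel _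
  haveI : BorelSpace (OnePoint (Sp G)) := ⟨rfl⟩
  haveI : WeaklyLocallyCompactSpace (Sp G) := inferInstance
  obtain ⟨μ, h1, h2⟩ := exists_measure hG
  have huniv : Big G (univ : Set Om) := ⟨univ, Subset.rfl, fun _ _ => trivial, fun β => by
    obtain ⟨δ, hδ⟩ := exists_gt β
    exact ⟨δ, trivial, hδ⟩⟩
  have hfin : MeasureTheory.IsFiniteMeasure μ := ⟨by
    rw [h1 univ MeasurableSet.univ (by simpa using huniv)]
    exact ENNReal.one_lt_top⟩
  have h3 := h μ hfin (YY G) isOpen_YY.measurableSet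
  have h4 : pz G ⁻¹' (YY G) = univ := by
    rw [eq_univ_iff_forall]
    exact fun δ => mem_range_self δ
  rw [h1 (YY G) isOpen_YY.measurableSet (by rw [h4]; exact huniv)] at h3
  have h5 : (⨆ (K : Set (OnePoint (Sp G))) (_ : K ⊆ YY G) (_ : IsCompact K), μ K) = 0 := by
    simp only [ENNReal.iSup_eq_zero]
    intro K hKY hK
    refine h2 K hK.isClosed.measurableSet ?_
    rintro ⟨C, hC1, hC2, hC3⟩
    obtain ⟨β, hβ⟩ := compact_bounded hK hKY
    obtain ⟨δ, hδ1, hδ2⟩ := hC3 β
    exact absurd hδ2 (not_lt.2 (hβ δ (hC1 hδ1)))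
  rw [h5] at h3
  exact one_ne_zero h3

/-- **Main theorem.** (1) Some forcing notion forces (over any ground model) that `ω₁` is preserved
and that Jensen's diamond holds. (2) Diamond implies that there is a weakly first countable compact
Hausdorff space which is not hereditarily `α`-realcompact, not Radon, and not hereditarily weakly
`θ`-refinable. -/
theorem result :
    (∃ (P : Type) (_ : Preorder P), Nonempty P ∧ ∀ p : P,
      p ∈ OmegaOnePreserved P ∧ p ∈ DiamondHolds P) ∧
    (Diamond → ∃ (X : Type) (_ : TopologicalSpace X), CompactSpace X ∧ T2Space X ∧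
      WeaklyFirstCountable X ∧ ¬ HereditarilyAlphaRealcompact X ∧ ¬ Radon X ∧
      ¬ HereditarilyWeaklyThetaRefinable X) := by
  refine ⟨?_, fun hd => ?_⟩
  · obtain ⟨P, hP, hne, h⟩ := Pool.Agent.Helper292.ForceCH.exists_forcing
    exact ⟨P, hP, hne, fun p => ⟨(h p).1, (h p).2.1⟩⟩
  · obtain ⟨A, hA⟩ := hd
    obtain ⟨G, hG⟩ := exists_guess A hA
    exact ⟨OnePoint (Sp G), inferInstance, inferInstance, inferInstance, wfc hG,
      fun h => not_alphaRealcompact hG (h _), not_radon hG,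
      fun h => not_weaklyThetaRefinable hG (h _)⟩

end Pool.Agent.Results.MP_4fd693_gt.AllPartsForced
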