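import Pool.Agent.Helper391.ForceCH
import Pool.Agent.Helper391.Wfc.P_main
import Pool.Agent.Helper391.TreeCompactum

set_option autoImplicit false
set_option linter.all false

/-!
# A weakly first countable compactum with three bad hereditary properties

Some forcing notion forces diamond; diamond gives one weakly first countable compact space which
is not hereditarily `α`-realcompact, not Radon and not hereditarily weakly `θ`-refinable. For the
last property there is also an example in ZFC.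
-/

open Set Topology Filter

namespace Pool.Agent.Results.MP_4fd693_gt.ThreeParts

open Pool.Agent.Helper391.ForceCH (Om OmegaOnePreserved DiamondHolds)

/-- `C` is a closed unbounded subset of `ω₁` (the sentence named by `IsClubName`) -/
def IsClub (C : Om → Prop) : Prop :=
  (∀ a : Om, ∃ b : Om, a < b ∧ C b) ∧
    ∀ a : Om, (∃ b, b < a) → (∀ b : Om, b < a → ∃ c : Om, (b < c ∧ c < a) ∧ C c) → C a

/-- diamond: the sentence which `DiamondHolds P` says is forced, evaluated in the universe -/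
def Diamond : Prop :=
  ∃ A : Om → Om → Prop, ∀ S : Om → Prop, ∀ C : Om → Prop,
    IsClub C → ∃ a : Om, C a ∧ ∀ b : Om, b < a → (S b ↔ A a b)

/-- `X` is weakly first countable: each point `x` has a decreasing sequence of sets `V x n`
containing `x` such that a set `U` is open iff each point `x` of `U` has some `V x n ⊆ U`. -/
def WeaklyFirstCountable (X : Type) [TopologicalSpace X] : Prop :=
  ∃ V : X → ℕ → Set X, (∀ x n, x ∈ V x n ∧ V x (n + 1) ⊆ V x n) ∧
    ∀ U : Set X, IsOpen U ↔ ∀ x ∈ U, ∃ n, V x n ⊆ U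

/-- `𝓕` is a closed ultrafilter on `S`: a maximal (proper) filter in the lattice of the closed
subsets of `S` -/
structure IsClosedUltrafilter {S : Type} [TopologicalSpace S] (𝓕 : Set (Set S)) : Prop where
  closed : ∀ A ∈ 𝓕, IsClosed A
  univ_mem : Set.univ ∈ 𝓕
  empty_notMem : ∅ ∉ 𝓕
  inter : ∀ A ∈ 𝓕, ∀ A' ∈ 𝓕, A ∩ A' ∈ 𝓕
  mono : ∀ A ∈ 𝓕, ∀ A', IsClosed A' → A ⊆ A' → A' ∈ 𝓕
  maximal : ∀ A, IsClosed A → A ∉ 𝓕 → ∃ A' ∈ 𝓕, A ∩ A' = ∅

/-- `S` is `α`-realcompact: every closed ultrafilter on `S` with the countable intersection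
property has nonempty intersection -/
def AlphaRealcompact (S : Type) [TopologicalSpace S] : Prop :=
  ∀ 𝓕 : Set (Set S), IsClosedUltrafilter 𝓕 →
    (∀ 𝓖 ⊆ 𝓕, 𝓖.Countable → (⋂₀ 𝓖).Nonempty) → (⋂₀ 𝓕).Nonempty

/-- `X` is Radon: every finite Borel measure is inner regular with respect to compact sets -/
def RadonSpace (X : Type) [TopologicalSpace X] : Prop :=
  ∀ μ : @MeasureTheory.Measure X (borel X), @MeasureTheory.IsFiniteMeasure X (borel X) μ →
    ∀ A : Set X, @MeasurableSet X (borel X) A → ∀ c < μ A, ∃ C ⊆ A, IsCompact C ∧ c < μ C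

/-- `X` is weakly `θ`-refinable: every open cover has an open refinement `⋃ n, 𝓥 n` such that for
each `x` there is `n` for which `x` lies in at least one and only finitely many members of `𝓥 n` -/
def WeaklyThetaRefinable (X : Type) [TopologicalSpace X] : Prop :=
  ∀ 𝓤 : Set (Set X), (∀ U ∈ 𝓤, IsOpen U) → ⋃₀ 𝓤 = Set.univ →
    ∃ 𝓥 : ℕ → Set (Set X), (∀ n, ∀ V ∈ 𝓥 n, IsOpen V ∧ ∃ U ∈ 𝓤, V ⊆ U) ∧
      ∀ x, ∃ n, (∃ V ∈ 𝓥 n, x ∈ V) ∧ {V | V ∈ 𝓥 n ∧ x ∈ V}.Finite

/-- (1) Some forcing notion preserves `ω₁` and forces diamond. (2) Diamond implies that there is a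
weakly first countable compact Hausdorff space `X` which has a subspace that is not
`α`-realcompact, which is not Radon, and which has a subspace that is not weakly
`θ`-refinable. (3) In ZFC there is a weakly first countable compact Hausdorff space with a subspace
that is not weakly `θ`-refinable. -/
theorem result :
    (∃ (P : Type) (_ : Preorder P), Nonempty P ∧ ∀ p : P,
      p ∈ OmegaOnePreserved P ∧ p ∈ DiamondHolds P) ∧
    (Diamond → ∃ (X : Type) (_ : TopologicalSpace X), CompactSpace X ∧ T2Space X ∧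
      WeaklyFirstCountable X ∧ (∃ S : Set X, ¬ AlphaRealcompact S) ∧ ¬ RadonSpace X ∧
      ∃ S : Set X, ¬ WeaklyThetaRefinable S) ∧
    (∃ (X : Type) (_ : TopologicalSpace X), CompactSpace X ∧ T2Space X ∧
      WeaklyFirstCountable X ∧ ∃ S : Set X, ¬ WeaklyThetaRefinable S) := by
  refine ⟨?_, ?_, ?_⟩
  · obtain ⟨P, hP, hne, h⟩ := Pool.Agent.Helper391.ForceCH.exists_forcing
    exact ⟨P, hP, hne, fun p => ⟨(h p).1, (h p).2.1⟩⟩
  · intro h
    obtain ⟨X, tX, h1, h2, h3, ⟨S, hS⟩, h4, h5⟩ := Pool.Agent.Helper391.Wfc.main h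
    refine ⟨X, tX, h1, h2, h3, ⟨S, ?_⟩, h4, h5⟩
    intro hα
    apply hS
    intro 𝓕 h𝓕 hc
    exact hα 𝓕 ⟨h𝓕.closed, h𝓕.univ_mem, h𝓕.empty_notMem, h𝓕.inter, h𝓕.mono, h𝓕.maximal⟩ hc
  · obtain ⟨X, tX, h1, h2, _, ⟨V, h3, h3', h3''⟩, S, hS⟩ :=
      Pool.Agent.Helper391.TreeCompactum.tree_result
    exact ⟨X, tX, h1, h2, ⟨V, fun x n => ⟨h3' x n, h3 x n⟩, h3''⟩, S, hS⟩

end Pool.Agent.Results.MP_4fd693_gt.ThreeParts
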