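import Pool.Agent.Helper535.TreeC

set_option autoImplicit false

open Set Topology Filter Helper535.TreeC

namespace Pool.Agent.Results.MP_4fd693_gt.TreeCompactum

/-- weakly first countable spaces (Arhangel'skii) -/
def WeaklyFirstCountable (X : Type*) [TopologicalSpace X] : Prop :=
  ∃ B : X → ℕ → Set X, (∀ x n, B x (n + 1) ⊆ B x n) ∧ (∀ x n, x ∈ B x n) ∧
    ∀ U : Set X, IsOpen U ↔ ∀ x ∈ U, ∃ n, B x n ⊆ U

/-- weakly theta-refinable spaces: every open cover has an open refinement `⋃ n, 𝒱 n` such that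
for each point `x` there is `n` such that `x` lies in at least one and only finitely many
members of `𝒱 n` -/
def WeaklyThetaRefinable (X : Type*) [TopologicalSpace X] : Prop :=
  ∀ 𝒰 : Set (Set X), (∀ U ∈ 𝒰, IsOpen U) → ⋃₀ 𝒰 = univ →
    ∃ 𝒱 : ℕ → Set (Set X), (∀ n, ∀ V ∈ 𝒱 n, IsOpen V ∧ ∃ U ∈ 𝒰, V ⊆ U) ∧
      ∀ x : X, ∃ n, {V | V ∈ 𝒱 n ∧ x ∈ V}.Nonempty ∧ {V | V ∈ 𝒱 n ∧ x ∈ V}.Finite

theorem wfc_of_fc (X : Type*) [TopologicalSpace X] [FirstCountableTopology X] :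
    WeaklyFirstCountable X := by
  choose B hB using fun x : X => (𝓝 x).exists_antitone_basis
  refine ⟨B, fun x n => (hB x).antitone (Nat.le_succ n), fun x n =>
    mem_of_mem_nhds ((hB x).mem n), fun U => ?_⟩
  rw [isOpen_iff_mem_nhds]
  exact forall₂_congr fun x _ => by
    rw [(hB x).toHasBasis.mem_iff]
    simp

/-- states of the fusion argument -/
def Good (x : Set ℚ × ℚ × ℚ) : Prop :=
  x.1.IsWF ∧ x.1.Nonempty ∧ x.2.1 < x.2.2 ∧ ∀ q ∈ x.1, q ≤ x.2.1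

theorem step (c : Set ℚ → ℕ) (x : Set ℚ × ℚ × ℚ) (hx : Good x) (n : ℕ) :
    ∃ (y : Set ℚ × ℚ × ℚ) (t : Set ℚ), Good y ∧ Ini x.1 t ∧ Ini t y.1 ∧ t ≠ y.1 ∧
      y.2.2 < x.2.2 ∧ t.IsWF ∧
      ((∃ t' : Set ℚ, t'.IsWF ∧ Ini x.1 t' ∧ (∃ a' < x.2.2, ∀ r ∈ t', r ≤ a') ∧ c t' = n) →
        c t = n) := by
  obtain ⟨hwf, hne, hab, hle⟩ := hx
  -- choose `t` and a bound
  have h1 : ∃ t : Set ℚ, t.IsWF ∧ Ini x.1 t ∧ (∃ a' < x.2.2, ∀ r ∈ t, r ≤ a') ∧
      ((∃ t' : Set ℚ, t'.IsWF ∧ Ini x.1 t' ∧ (∃ a' < x.2.2, ∀ r ∈ t', r ≤ a') ∧ c t' = n) →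
        c t = n) := by
    by_cases h : ∃ t' : Set ℚ, t'.IsWF ∧ Ini x.1 t' ∧ (∃ a' < x.2.2, ∀ r ∈ t', r ≤ a') ∧ c t' = n
    · obtain ⟨t, h1, h2, h3, h4⟩ := h
      exact ⟨t, h1, h2, h3, fun _ => h4⟩
    · exact ⟨x.1, hwf, Ini.refl _, ⟨x.2.1, hab, hle⟩, fun h' => absurd h' h⟩
  obtain ⟨t, ht, hxt, ⟨a', ha', hta⟩, hc⟩ := h1
  obtain ⟨q, hq1, hq2⟩ := exists_between ha'
  obtain ⟨b, hb1, hb2⟩ := exists_between hq2
  refine ⟨(insert q t, q, b), t, ⟨?_, ?_, hb1, ?_⟩, hxt, ⟨subset_insert _ _, ?_⟩, ?_, hb2, ht, hc⟩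
  · exact ht.insert q
  · exact insert_nonempty _ _
  · rintro r (rfl | hr)
    · exact le_rfl
    · exact (hta r hr).trans hq1.le
  · rintro r hr s (rfl | hs) hlt
    · exact absurd (hlt.trans_le (hta r hr)) (not_lt.2 hq1.le)
    · exact hs
  · intro he
    have : q ∈ t := by rw [he]; exact mem_insert _ _
    exact absurd (hta q this) (not_le.2 hq1)

/-- Kurepa: a countable colouring of the well ordered sets of rationals is constant on some
two-element chain -/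
theorem kurepa (c : Set ℚ → ℕ) : ∃ s t : Set ℚ, s.IsWF ∧ t.IsWF ∧ s.Nonempty ∧ Ini s t ∧ s ≠ t ∧
    c s = c t := by
  classical
  choose Y T hY using step c
  let X : ℕ → {x : Set ℚ × ℚ × ℚ // Good x} := fun n =>
    Nat.rec ⟨({0}, 0, 1), by
      refine ⟨(Set.finite_singleton _).isWF, singleton_nonempty _, by norm_num, ?_⟩
      rintro q rfl
      exact le_rfl⟩ (fun n x => ⟨Y x.1 x.2 n, (hY x.1 x.2 n).1⟩) n
  have hX : ∀ n, (X (n + 1)).1 = Y (X n).1 (X n).2 n := fun n => rfl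
  let S : ℕ → Set ℚ := fun n => (X n).1.1
  let t : ℕ → Set ℚ := fun n => T (X n).1 (X n).2 n
  have hSt : ∀ n, Ini (S n) (t n) := fun n => (hY (X n).1 (X n).2 n).2.1
  have htS : ∀ n, Ini (t n) (S (n + 1)) := fun n => (hY (X n).1 (X n).2 n).2.2.1
  have htne : ∀ n, t n ≠ S (n + 1) := fun n => (hY (X n).1 (X n).2 n).2.2.2.1
  have hb : ∀ n, (X (n + 1)).1.2.2 < (X n).1.2.2 := fun n => (hY (X n).1 (X n).2 n).2.2.2.2.1
  have htwf : ∀ n, (t n).IsWF := fun n => (hY (X n).1 (X n).2 n).2.2.2.2.2.1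
  have hcol := fun n => (hY (X n).1 (X n).2 n).2.2.2.2.2.2
  have hmono : ∀ n m, n ≤ m → Ini (S n) (S m) := by
    intro n m hnm
    induction m, hnm using Nat.le_induction with
    | base => exact Ini.refl _
    | succ m _ ih => exact ih.trans ((hSt m).trans (htS m))
  have hbm : ∀ n m, n ≤ m → (X m).1.2.2 ≤ (X n).1.2.2 := by
    intro n m hnm
    induction m, hnm using Nat.le_induction with
    | base => exact le_rfl
    | succ m _ ih => exact (hb m).le.trans ih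
  let L : Set ℚ := ⋃ n, S n
  have hSL : ∀ n, Ini (S n) L := by
    intro n
    refine ⟨subset_iUnion S n, ?_⟩
    intro r hr q hq hlt
    obtain ⟨m, hm⟩ := mem_iUnion.1 hq
    have h1 : q ∈ S (max n m) := (hmono m _ (le_max_right _ _)).1 hm
    exact (hmono n _ (le_max_left _ _)).2 r hr q h1 hlt
  have hLwf : L.IsWF := by
    rw [Set.isWF_iff_no_descending_seq]
    intro f hf hmem
    obtain ⟨n, hn⟩ := mem_iUnion.1 (hmem 0)
    apply Set.isWF_iff_no_descending_seq.1 (X n).2.1 f hf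
    intro k
    rcases Nat.eq_zero_or_pos k with rfl | hk
    · exact hn
    · exact (hSL n).2 _ hn _ (hmem k) (hf hk)
  have hLb : ∀ n, ∀ q ∈ L, q ≤ (X (n + 1)).1.2.2 := by
    intro n q hq
    obtain ⟨m, hm⟩ := mem_iUnion.1 hq
    have h1 : q ∈ S (max (n + 1) m) := (hmono m _ (le_max_right _ _)).1 hm
    have h2 := (X (max (n + 1) m)).2
    exact (h2.2.2.2 q h1).trans (h2.2.2.1.le.trans (hbm _ _ (le_max_left _ _)))
  refine ⟨t (c L), L, htwf _, hLwf, ?_, (htS (c L)).trans (hSL (c L + 1)), ?_, ?_⟩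
  · exact (X (c L)).2.2.1.mono (hSt _).1
  · intro he
    exact htne (c L) (Ini.antisymm (htS (c L)) (by rw [he]; exact hSL (c L + 1)))
  · exact hcol (c L) ⟨L, hLwf, hSL _, ⟨_, hb _, hLb _⟩, rfl⟩

/-- the subspace of all points coming from the tree -/
def YY : Set KK := {p | ∃ x : Set ℚ, x.IsWF ∧ p.1 = φ x}

/-- the points of the tree -/
noncomputable def ψ (x : Set ℚ) (hx : x.IsWF) : YY :=
  ⟨⟨φ x, subset_closure ⟨x, hx, rfl⟩⟩, x, hx, rfl⟩

theorem coord {x : Set ℚ} (hne : x.Nonempty) (i : Idx) :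
    ∃ q ∈ x, ∀ z : Set ℚ, Ini z x → q ∈ z → φ z i = φ x i := by
  rcases i with ⟨s, q0⟩ | t
  · by_cases h : φ x (Sum.inl (s, q0)) = true
    · have h' := φ_inl.1 h
      refine ⟨q0, h'.1, fun z hz hq => ?_⟩
      rw [h, φ_inl]
      exact ⟨hq, by rw [← hz.inter_Iio hq]; exact h'.2⟩
    · obtain ⟨q, hq⟩ := hne
      refine ⟨q, hq, fun z hz _ => ?_⟩
      have h2 : φ x (Sum.inl (s, q0)) = false := by simpa using h
      rw [h2]
      by_contra hcon
      have h3 : φ z (Sum.inl (s, q0)) = true := by simpa using hcon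
      rw [φ_inl] at h3
      exact h (φ_inl.2 ⟨hz.1 h3.1, by rw [hz.inter_Iio h3.1]; exact h3.2⟩)
  · by_cases h : Ini x t
    · obtain ⟨q, hq⟩ := hne
      refine ⟨q, hq, fun z hz _ => ?_⟩
      rw [φ_inr.2 h, φ_inr]
      exact hz.trans h
    · have h2 : φ x (Sum.inr t) = false := by
        by_contra hcon
        exact h (φ_inr.1 (by simpa using hcon))
      have key : ∃ q ∈ x, ∀ z : Set ℚ, Ini z x → q ∈ z → ¬ Ini z t := by
        by_contra hcon
        push Not at hcon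
        apply h
        constructor
        · intro q hq
          obtain ⟨z, -, hqz, hzt⟩ := hcon q hq
          exact hzt.1 hqz
        · intro r hr q hq hlt
          obtain ⟨z, hzx, hrz, hzt⟩ := hcon r hr
          exact hzx.1 (hzt.2 r hrz q hq hlt)
      obtain ⟨q, hq, hz⟩ := key
      refine ⟨q, hq, fun z hzx hqz => ?_⟩
      rw [h2]
      by_contra hcon
      exact hz z hzx hqz (φ_inr.1 (by simpa using hcon))

theorem nbhd {x : Set ℚ} (hx : x.IsWF) (hne : x.Nonempty) {W : Set YY} (hW : IsOpen W)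
    (hxW : ψ x hx ∈ W) :
    ∃ q ∈ x, ∀ (z : Set ℚ) (hz : z.IsWF), Ini z x → q ∈ z → ψ z hz ∈ W := by
  classical
  obtain ⟨W1, hW1, rfl⟩ := isOpen_induced_iff.1 hW
  obtain ⟨O, hO, rfl⟩ := isOpen_induced_iff.1 hW1
  have hxO : φ x ∈ O := hxW
  obtain ⟨F, u, hu, hF⟩ := isOpen_pi_iff.1 hO _ hxO
  have key : ∃ q ∈ x, ∀ z : Set ℚ, Ini z x → q ∈ z → ∀ i ∈ F, φ z i = φ x i := by
    clear hF hu
    induction F using Finset.induction_on with
    | empty =>
      obtain ⟨q, hq⟩ := hne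
      exact ⟨q, hq, fun z _ _ i hi => absurd hi (Finset.notMem_empty i)⟩
    | insert i F _ ih =>
      obtain ⟨q1, hq1, h1⟩ := ih
      obtain ⟨q2, hq2, h2⟩ := coord hne i
      rcases le_total q1 q2 with h | h
      · refine ⟨q2, hq2, fun z hz hq j hj => ?_⟩
        have hq1z : q1 ∈ z := by
          rcases h.eq_or_lt with h' | h'
          · exact h' ▸ hq
          · exact hz.2 q2 hq q1 hq1 h'
        rcases Finset.mem_insert.1 hj with rfl | hj
        · exact h2 z hz hq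
        · exact h1 z hz hq1z j hj
      · refine ⟨q1, hq1, fun z hz hq j hj => ?_⟩
        have hq2z : q2 ∈ z := by
          rcases h.eq_or_lt with h' | h'
          · exact h' ▸ hq
          · exact hz.2 q1 hq q2 hq2 h'
        rcases Finset.mem_insert.1 hj with rfl | hj
        · exact h2 z hz hq2z
        · exact h1 z hz hq j hj
  obtain ⟨q, hq, hz⟩ := key
  refine ⟨q, hq, fun z hzw hzx hqz => ?_⟩
  apply hF
  intro i hi
  have := (hu i hi).2
  rw [← hz z hzx hqz i hi] at this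
  exact this

theorem not_wtr : ¬ WeaklyThetaRefinable YY := by
  classical
  intro hwtr
  let O : Set ℚ → Set YY := fun t => {p | p.1.1 (Sum.inr t) = true}
  have hOo : ∀ t, IsOpen (O t) := by
    intro t
    have hc : Continuous (fun p : YY => p.1.1 (Sum.inr t)) :=
      (continuous_apply (Sum.inr t)).comp (continuous_subtype_val.comp continuous_subtype_val)
    exact (isOpen_discrete ({true} : Set Bool)).preimage hc
  have hO : ∀ (x : Set ℚ) (hx : x.IsWF) (t : Set ℚ), ψ x hx ∈ O t ↔ Ini x t := by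
    intro x hx t
    exact φ_inr
  obtain ⟨𝒱, h𝒱, hpt⟩ := hwtr {U | ∃ t : Set ℚ, t.IsWF ∧ U = O t}
    (by rintro U ⟨t, -, rfl⟩; exact hOo t)
    (by
      apply eq_univ_of_forall
      rintro ⟨⟨p, hp⟩, x, hx, hpx⟩
      refine ⟨O x, ⟨x, hx, rfl⟩, ?_⟩
      change p (Sum.inr x) = true
      change p = φ x at hpx
      rw [hpx]
      exact φ_inr.2 (Ini.refl x))
  choose n hnne hnfin using hpt
  let F : YY → Set (Set YY) := fun p => {V | V ∈ 𝒱 (n p) ∧ p ∈ V}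
  -- choice functions
  have hV : ∀ G : Set (Set YY), ∃ V : Set YY, G.Nonempty → V ∈ G := by
    intro G
    by_cases h : G.Nonempty
    · exact ⟨h.some, fun _ => h.some_mem⟩
    · exact ⟨∅, fun h' => absurd h' h⟩
  choose V hV using hV
  have hu : ∀ W : Set YY, ∃ t : Set ℚ, (∃ t' : Set ℚ, t'.IsWF ∧ W ⊆ O t') → (t.IsWF ∧ W ⊆ O t) := by
    intro W
    by_cases h : ∃ t' : Set ℚ, t'.IsWF ∧ W ⊆ O t'
    · exact ⟨h.choose, fun _ => h.choose_spec⟩
    · exact ⟨∅, fun h' => absurd h' h⟩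
  choose u hu using hu
  have hW : ∀ x : Set ℚ, ∃ q : ℚ, ∀ hx : x.IsWF, x.Nonempty → (q ∈ x ∧
      ∀ (z : Set ℚ) (hz : z.IsWF), Ini z x → q ∈ z → ψ z hz ∈ ⋂₀ F (ψ x hx)) := by
    intro x
    by_cases hx : x.IsWF ∧ x.Nonempty
    · obtain ⟨hx, hne⟩ := hx
      have hop : IsOpen (⋂₀ F (ψ x hx)) :=
        (hnfin (ψ x hx)).isOpen_sInter fun W hW => (h𝒱 _ W hW.1).1
      obtain ⟨q, hq, hz⟩ := nbhd hx hne hop (fun W hW => hW.2)
      exact ⟨q, fun _ _ => ⟨hq, hz⟩⟩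
    · exact ⟨0, fun h1 h2 => absurd ⟨h1, h2⟩ hx⟩
  choose g hg using hW
  have hd : ∀ x y : Set ℚ, ∃ o : Option ℚ, (x ≠ y → y.IsWF → Ini x y →
      ∃ q, o = some q ∧ y ∩ Iio q = x) ∧ (x = y → o = none) := by
    intro x y
    by_cases h : x ≠ y ∧ y.IsWF ∧ Ini x y
    · obtain ⟨q, -, -, h4⟩ := first_diff h.2.1 h.2.2 h.1
      exact ⟨some q, fun _ _ _ => ⟨q, rfl, h4⟩, fun he => absurd he h.1⟩
    · exact ⟨none, fun h1 h2 h3 => absurd ⟨h1, h2, h3⟩ h, fun _ => rfl⟩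
  choose d hd1 hd2 using hd
  obtain ⟨e, he⟩ := exists_injective_nat (ℕ × ℕ × ℚ × Option ℚ)
  let c : Set ℚ → ℕ := fun x =>
    if hx : x.IsWF then
      e (n (ψ x hx), (F (ψ x hx)).ncard, g x, d x (u (V (F (ψ x hx)))))
    else 0
  obtain ⟨s, t, hs, ht, hsne, hst, hne, hc⟩ := kurepa c
  have hc' : e (n (ψ s hs), (F (ψ s hs)).ncard, g s, d s (u (V (F (ψ s hs))))) =
      e (n (ψ t ht), (F (ψ t ht)).ncard, g t, d t (u (V (F (ψ t ht))))) := by
    simpa only [c, dif_pos hs, dif_pos ht] using hc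
  have hc2 := he hc'
  simp only [Prod.mk.injEq] at hc2
  obtain ⟨e1, e2, e3, e4⟩ := hc2
  have htne : t.Nonempty := hsne.mono hst.1
  have hgs := (hg s hs hsne).1
  have hgt := (hg t ht htne).2 s hs hst (e3 ▸ hgs)
  have hsub : F (ψ t ht) ⊆ F (ψ s hs) := by
    intro W hW
    refine ⟨?_, hgt W hW⟩
    rw [e1]
    exact hW.1
  have hFF : F (ψ t ht) = F (ψ s hs) :=
    Set.eq_of_subset_of_ncard_le hsub e2.le (hnfin (ψ s hs))
  have hVs : V (F (ψ s hs)) ∈ F (ψ s hs) := hV _ (hnne (ψ s hs))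
  have hVt : V (F (ψ s hs)) ∈ F (ψ t ht) := by rw [hFF]; exact hVs
  obtain ⟨U, ⟨t', ht', rfl⟩, hU⟩ := (h𝒱 _ _ hVs.1).2
  obtain ⟨huwf, huV⟩ := hu (V (F (ψ s hs))) ⟨t', ht', hU⟩
  rw [hFF] at e4
  have hsu : Ini s (u (V (F (ψ s hs)))) := (hO s hs _).1 (huV hVs.2)
  have htu : Ini t (u (V (F (ψ s hs)))) := (hO t ht _).1 (huV hVt.2)
  by_cases h1 : s = u (V (F (ψ s hs)))
  · by_cases h2 : t = u (V (F (ψ s hs)))
    · exact hne (h1.trans h2.symm)
    · obtain ⟨q, hq, -⟩ := hd1 t _ h2 huwf htu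
      rw [hd2 s _ h1, hq] at e4
      exact absurd e4 (by simp)
  · obtain ⟨q, hq, hq2⟩ := hd1 s _ h1 huwf hsu
    by_cases h2 : t = u (V (F (ψ s hs)))
    · rw [hd2 t _ h2, hq] at e4
      exact absurd e4 (by simp)
    · obtain ⟨q', hq', hq2'⟩ := hd1 t _ h2 huwf htu
      rw [hq, hq'] at e4
      obtain rfl : q = q' := by simpa using e4
      exact hne (hq2.symm.trans hq2')

/-- There is (in ZFC) a first countable, in particular weakly first countable, compact Hausdorff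
space which is not hereditarily weakly theta-refinable. -/
theorem result : ∃ (K : Type) (_ : TopologicalSpace K), CompactSpace K ∧ T2Space K ∧
    FirstCountableTopology K ∧ WeaklyFirstCountable K ∧ ∃ Y : Set K, ¬ WeaklyThetaRefinable Y :=
  ⟨KK, inferInstance, inferInstance, inferInstance, inferInstance, wfc_of_fc KK, YY, not_wtr⟩

end Pool.Agent.Results.MP_4fd693_gt.TreeCompactum
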